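import Pool.Agent.Helper120_Alt.Uni4

set_option autoImplicit false

namespace Pool.Agent.Results.MP_b71150_al.PolynomialRelator

open Pool.Agent.Helper120_Alt

/-- One-relator unital associative algebras over a coded field `F`: let `K` be an extension field of
`F` (for instance `F`) with computable addition, multiplication and embedding of `F`. If the algebra
is isomorphic to an `F`-subalgebra of an algebra over `K` with finitely many generators and one
relation `p(v) = 0`, where `p` is a polynomial in one variable and `v` is an element with a strongly
free leading component for some positive weights of the letters, then its word problem is
decidable. -/
theorem result (F K : Type) [Field F] [Field K] [Algebra F K] [Primcodable F] [Primcodable K]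
    (hemb : Computable (algebraMap F K))
    (hadd : Computable₂ fun a b : K => a + b) (hmul : Computable₂ fun a b : K => a * b)
    (m : ℕ) (f : UA F (Fin m)) (h : PolSub K f) : WPDec f :=
  wpDec_of_polSub hemb hadd hmul h

end Pool.Agent.Results.MP_b71150_al.PolynomialRelator
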